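import Mathlib
import Pool.Agent.H92.Gr3
import Pool.Agent.H92.Gr8

open Real Matrix H92.Gr

namespace Pool.Agent.Results.MP_aeebd3_an.Fails

universe u

lemma isGr {𝕜 : Type} [RCLike 𝕜] {K : ℝ}
    (h : ∀ (m n : ℕ) (A : Matrix (Fin m) (Fin n) 𝕜), gam A ≤ K * bil 𝕜 A) : IsGr.{u} 𝕜 K := by
  intro m n A H _ _ _ x y hx hy
  exact (le_gam A (cor_inner x y hx hy)).trans (h m n A)

lemma low_real {K : ℝ} (hK : K < π - 1) : ∃ (k : ℕ) (S B : Matrix (Fin k) (Fin k) ℝ),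
    IsCorr ℝ S ∧ K * quad ℝ B < ‖(Bᴴ * S).trace‖ := by
  obtain ⟨k, S, B, h1, h2, h3⟩ := lower_real (K := max K 0) (le_max_right _ _)
    (max_lt hK (by linarith [pi_gt_three]))
  exact ⟨k, S, B, h1, (mul_le_mul_of_nonneg_right (le_max_left _ _) h2).trans_lt h3⟩

lemma low_complex {K : ℝ} (hK : K < 8 / π - 1) : ∃ (k : ℕ) (S B : Matrix (Fin k) (Fin k) ℂ),
    IsCorr ℂ S ∧ K * quad ℂ B < ‖(Bᴴ * S).trace‖ := by
  obtain ⟨k, S, B, h1, h2, h3⟩ := lower_complex (K := max K 0) (le_max_right _ _)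
    (max_lt hK (by rw [sub_pos, lt_div_iff₀ pi_pos]; linarith [pi_lt_four]))
  exact ⟨k, S, B, h1, (mul_le_mul_of_nonneg_right (le_max_left _ _) h2).trans_lt h3⟩

theorem joined :
    ((∃ (k : ℕ) (S B : Matrix (Fin k) (Fin k) ℝ),
        IsCorr ℝ S ∧ KG.{u} ℝ * quad ℝ B < ‖(Bᴴ * S).trace‖) ∧
      (∃ (k : ℕ) (S B : Matrix (Fin k) (Fin k) ℂ),
        IsCorr ℂ S ∧ KG.{u} ℂ * quad ℂ B < ‖(Bᴴ * S).trace‖)) ∧
    ((∃ K, 0 < K ∧ K < π - 1 ∧ IsGr.{u} ℝ K) ∧ (∃ K, 0 < K ∧ K < 8 / π - 1 ∧ IsGr.{u} ℂ K)) ∧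
    (∀ K < π - 1, ∃ (k : ℕ) (S B : Matrix (Fin k) (Fin k) ℝ),
        IsCorr ℝ S ∧ K * quad ℝ B < ‖(Bᴴ * S).trace‖) ∧
    (∀ K < 8 / π - 1, ∃ (k : ℕ) (S B : Matrix (Fin k) (Fin k) ℂ),
        IsCorr ℂ S ∧ K * quad ℂ B < ‖(Bᴴ * S).trace‖) := by
  have h1 : 10 * π / 17 < π - 1 := by linarith [pi_gt_three]
  have h2 : 24 / (5 * π) < 8 / π - 1 := by
    have : 8 / π - 24 / (5 * π) = 16 / (5 * π) := by field_simp; norm_num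
    have h : 1 < 16 / (5 * π) := by rw [lt_div_iff₀ (by positivity)]; linarith [pi_lt_d2]
    linarith
  exact ⟨⟨low_real (KG_real.trans_lt h1), low_complex (KG_complex.trans_lt h2)⟩,
    ⟨⟨_, by positivity, h1, isGr fun _ _ A => gam_real A⟩,
      ⟨_, by positivity, h2, isGr fun _ _ A => gam_complex A⟩⟩,
    fun _ => low_real, fun _ => low_complex⟩

theorem result :
    (∃ (k : ℕ) (S B : Matrix (Fin k) (Fin k) ℝ),
        IsCorr ℝ S ∧ KG.{u} ℝ * quad ℝ B < ‖(Bᴴ * S).trace‖) ∧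
      (∃ (k : ℕ) (S B : Matrix (Fin k) (Fin k) ℂ),
        IsCorr ℂ S ∧ KG.{u} ℂ * quad ℂ B < ‖(Bᴴ * S).trace‖) := joined.{u}.1

end Pool.Agent.Results.MP_aeebd3_an.Fails
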